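import Pool.Agent.helper48.DH.SpecY

/-! # Part Y, row yCAL (helper18): calculus of the antiderivatives from 0 -/

set_option autoImplicit false

open Filter Topology MeasureTheory
open scoped commutatorElement

namespace Pool.Agent.helper90.DH

open Pool.Agent.helper64.D2

theorem yCAL_int (f : ℝ → ℝ) (hf : BM f) : Integrable f := by
  obtain ⟨hm, ⟨B, hB⟩, h0⟩ := hf
  have h1 : IntegrableOn f (Set.Icc (0 : ℝ) 1) := by
    apply Measure.integrableOn_of_bounded (M := B)
    · simp
    · exact hm.aestronglyMeasurable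
    · exact ae_of_all _ (fun x => by rw [Real.norm_eq_abs]; exact hB x)
  rw [← integrableOn_iff_integrable_of_support_subset (s := Set.Icc (0 : ℝ) 1)]
  · exact h1
  · intro x hx
    by_contra hc
    exact hx (h0 x hc)

theorem yCAL_i (f : ℝ → ℝ) (hf : BM f) (a b : ℝ) : IntervalIntegrable f volume a b :=
  (yCAL_int f hf).intervalIntegrable

theorem yCAL_t (f : ℝ → ℝ) (hf : BM f) : BM (fun t => t * f t) := by
  obtain ⟨hm, ⟨B, hB⟩, h0⟩ := hf
  refine ⟨measurable_id.mul hm, ⟨B, fun x => ?_⟩, fun x hx => by simp only [h0 x hx, mul_zero]⟩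
  by_cases hx : x ∈ Set.Icc (0 : ℝ) 1
  · rw [abs_mul]
    have h1 : |x| ≤ 1 := by rw [abs_of_nonneg hx.1]; exact hx.2
    calc |x| * |f x| ≤ 1 * |f x| := mul_le_mul_of_nonneg_right h1 (abs_nonneg _)
      _ ≤ B := by rw [one_mul]; exact hB x
  · simp only [h0 x hx, mul_zero, abs_zero]
    exact le_trans (abs_nonneg _) (hB x)

theorem yCAL_c (f : ℝ → ℝ) (h1 : ∀ a b : ℝ, IntervalIntegrable f volume a b) (h2 : ∀ a b : ℝ, IntervalIntegrable (fun t => t * f t) volume a b) (c a b : ℝ) :
    (∫ t in a..b, (c - t) * f t) = c * (∫ t in a..b, f t) - ∫ t in a..b, t * f t := by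
  rw [← intervalIntegral.integral_const_mul, ← intervalIntegral.integral_sub ((h1 a b).const_mul c) (h2 a b)]
  apply intervalIntegral.integral_congr
  intro t _
  ring

theorem yCAL_neg (f : ℝ → ℝ) (h0 : ∀ t < 0, f t = 0) (x : ℝ) (hx : x ≤ 0) : (∫ t in (0 : ℝ)..x, f t) = 0 := by
  rw [intervalIntegral.integral_of_ge hx, integral_Ioc_eq_integral_Ioo, setIntegral_eq_zero_of_forall_eq_zero, neg_zero]
  intro t ht
  exact h0 t ht.2

theorem yCAL_A (f : ℝ → ℝ) (hf : BM f) (x : ℝ) : A2 f x = x * (∫ t in (0 : ℝ)..x, f t) - ∫ t in (0 : ℝ)..x, t * f t := by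
  unfold A2
  exact yCAL_c f (yCAL_i f hf) (yCAL_i _ (yCAL_t f hf)) x 0 x

theorem yCAL_der (g : ℝ → ℝ) (hg : Continuous g) (x : ℝ) : HasDerivAt (A2 g) (∫ t in (0 : ℝ)..x, g t) x := by
  have hg2 : Continuous (fun t => t * g t) := continuous_id.mul hg
  have e : A2 g = fun x => x * (∫ t in (0 : ℝ)..x, g t) - ∫ t in (0 : ℝ)..x, t * g t := by
    funext y
    unfold A2
    exact yCAL_c g (fun a b => hg.intervalIntegrable a b) (fun a b => hg2.intervalIntegrable a b) y 0 y
  rw [e]
  have d1 : HasDerivAt (fun x => ∫ t in (0 : ℝ)..x, g t) (g x) x := (hg.integral_hasStrictDerivAt 0 x).hasDerivAt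
  have d2 : HasDerivAt (fun x => ∫ t in (0 : ℝ)..x, t * g t) (x * g x) x := (hg2.integral_hasStrictDerivAt 0 x).hasDerivAt
  have d3 := ((hasDerivAt_id x).mul d1).sub d2
  have e2 : (1 * (∫ t in (0 : ℝ)..x, g t) + id x * g x) - x * g x = ∫ t in (0 : ℝ)..x, g t := by
    simp only [id]
    ring
  rw [e2] at d3
  exact d3

/-- row yCAL. -/
theorem yCAL : yCAL_stmt := by
  refine ⟨?_, ?_, ?_, ?_, ?_, ?_⟩
  · intro f hf x x0
    have h1 : (∫ t in (0 : ℝ)..x, f t) - (∫ t in (0 : ℝ)..x0, f t) = ∫ t in x0..x, f t :=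
      intervalIntegral.integral_interval_sub_left (yCAL_i f hf 0 x) (yCAL_i f hf 0 x0)
    have h1t : (∫ t in (0 : ℝ)..x, t * f t) - (∫ t in (0 : ℝ)..x0, t * f t) = ∫ t in x0..x, t * f t :=
      intervalIntegral.integral_interval_sub_left (yCAL_i _ (yCAL_t f hf) 0 x) (yCAL_i _ (yCAL_t f hf) 0 x0)
    have h2 : A2 f x = A2 f x0 + (x - x0) * (∫ t in (0 : ℝ)..x0, f t) + ∫ t in x0..x, (x - t) * f t := by
      rw [yCAL_A f hf x, yCAL_A f hf x0, yCAL_c f (yCAL_i f hf) (yCAL_i _ (yCAL_t f hf)) x x0 x, ← h1, ← h1t]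
      ring
    refine ⟨h1, h2, yCAL_A f hf x, fun C hC => ⟨?_, ?_⟩⟩
    · rw [h1, ← Real.norm_eq_abs]
      apply intervalIntegral.norm_integral_le_of_norm_le_const
      intro t ht
      rw [Real.norm_eq_abs]
      exact hC t (Set.uIoc_subset_uIcc ht)
    · have h3 : A2 f x - A2 f x0 - (x - x0) * (∫ t in (0 : ℝ)..x0, f t) = ∫ t in x0..x, (x - t) * f t := by
        rw [h2]
        ring
      have h4 : ‖∫ t in x0..x, (x - t) * f t‖ ≤ (|x - x0| * C) * |x - x0| := by
        apply intervalIntegral.norm_integral_le_of_norm_le_const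
        intro t ht
        have ht' := Set.uIoc_subset_uIcc ht
        rw [Real.norm_eq_abs, abs_mul]
        exact mul_le_mul (Set.abs_sub_right_of_mem_uIcc ht') (hC t ht') (abs_nonneg _) (abs_nonneg _)
      rw [h3, ← Real.norm_eq_abs]
      calc ‖∫ t in x0..x, (x - t) * f t‖ ≤ (|x - x0| * C) * |x - x0| := h4
        _ = C * |x - x0| ^ 2 := by ring
        _ = C * (x - x0) ^ 2 := by rw [sq_abs]
  · intro I f hf x
    refine ⟨intervalIntegral.integral_finsetSum (fun i hi => yCAL_i (f i) (hf i hi) 0 x), ?_⟩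
    unfold A2
    rw [← intervalIntegral.integral_finsetSum]
    · apply intervalIntegral.integral_congr
      intro t _
      simp only [Finset.mul_sum]
    · intro i hi
      have h := ((yCAL_i (f i) (hf i hi) 0 x).const_mul x).sub (yCAL_i _ (yCAL_t (f i) (hf i hi)) 0 x)
      have e : (fun t => (x - t) * f i t) = fun t => x * f i t - t * f i t := by
        funext t
        ring
      rw [e]
      exact h
  · intro f g hf hg x
    refine ⟨intervalIntegral.integral_add (yCAL_i f hf 0 x) (yCAL_i g hg 0 x), ?_, ?_⟩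
    · rw [yCAL_A f hf x, yCAL_A g hg x]
      unfold A2
      rw [yCAL_c (fun t => f t + g t) (fun a b => (yCAL_i f hf a b).add (yCAL_i g hg a b))
        (fun a b => ((yCAL_i _ (yCAL_t f hf) a b).add (yCAL_i _ (yCAL_t g hg) a b)).congr (by
          intro t _
          simp only [Pi.add_apply]
          ring)) x 0 x, intervalIntegral.integral_add (yCAL_i f hf 0 x) (yCAL_i g hg 0 x)]
      have e : (∫ t in (0 : ℝ)..x, t * (f t + g t)) = (∫ t in (0 : ℝ)..x, t * f t) + ∫ t in (0 : ℝ)..x, t * g t := by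
        rw [← intervalIntegral.integral_add (yCAL_i _ (yCAL_t f hf) 0 x) (yCAL_i _ (yCAL_t g hg) 0 x)]
        apply intervalIntegral.integral_congr
        intro t _
        ring
      rw [e]
      ring
    · rw [yCAL_A f hf x, yCAL_A g hg x]
      unfold A2
      rw [yCAL_c (fun t => f t - g t) (fun a b => (yCAL_i f hf a b).sub (yCAL_i g hg a b))
        (fun a b => ((yCAL_i _ (yCAL_t f hf) a b).sub (yCAL_i _ (yCAL_t g hg) a b)).congr (by
          intro t _
          simp only [Pi.sub_apply]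
          ring)) x 0 x, intervalIntegral.integral_sub (yCAL_i f hf 0 x) (yCAL_i g hg 0 x)]
      have e : (∫ t in (0 : ℝ)..x, t * (f t - g t)) = (∫ t in (0 : ℝ)..x, t * f t) - ∫ t in (0 : ℝ)..x, t * g t := by
        rw [← intervalIntegral.integral_sub (yCAL_i _ (yCAL_t f hf) 0 x) (yCAL_i _ (yCAL_t g hg) 0 x)]
        apply intervalIntegral.integral_congr
        intro t _
        ring
      rw [e]
      ring
  · intro a f x
    refine ⟨intervalIntegral.integral_const_mul a f, ?_⟩
    unfold A2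
    rw [← intervalIntegral.integral_const_mul]
    apply intervalIntegral.integral_congr
    intro t _
    ring
  · intro f hf
    have c1 : Continuous (fun x => ∫ t in (0 : ℝ)..x, f t) := intervalIntegral.continuous_primitive (yCAL_i f hf) 0
    have c2 : Continuous (fun x => ∫ t in (0 : ℝ)..x, t * f t) := intervalIntegral.continuous_primitive (yCAL_i _ (yCAL_t f hf)) 0
    refine ⟨c1, ?_, fun x hx => ?_⟩
    · have e : A2 f = fun x => x * (∫ t in (0 : ℝ)..x, f t) - ∫ t in (0 : ℝ)..x, t * f t := funext (yCAL_A f hf)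
      rw [e]
      exact (continuous_id.mul c1).sub c2
    · have h0 : ∀ t < 0, f t = 0 := fun t ht => hf.2.2 t (fun h => absurd h.1 (not_le.mpr ht))
      refine ⟨yCAL_neg f h0 x hx, ?_⟩
      unfold A2
      exact yCAL_neg _ (fun t ht => by rw [h0 t ht, mul_zero]) x hx
  · intro g hg
    have hd : ∀ x, HasDerivAt (A2 g) (∫ t in (0 : ℝ)..x, g t) x := yCAL_der g hg
    have hde : deriv (A2 g) = fun x => ∫ t in (0 : ℝ)..x, g t := funext (fun x => (hd x).deriv)
    have hd1 : ∀ x, HasDerivAt (fun x => ∫ t in (0 : ℝ)..x, g t) (g x) x := fun x => (hg.integral_hasStrictDerivAt 0 x).hasDerivAt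
    have hdd : deriv (fun x => ∫ t in (0 : ℝ)..x, g t) = g := funext (fun x => (hd1 x).deriv)
    refine ⟨?_, fun x => (hd x).deriv, fun x => ?_⟩
    · have e : (2 : WithTop ℕ∞) = 1 + 1 := by norm_num
      rw [e, contDiff_succ_iff_deriv]
      refine ⟨fun x => (hd x).differentiableAt, fun h => absurd h (by decide), ?_⟩
      rw [hde, contDiff_one_iff_deriv]
      refine ⟨fun x => (hd1 x).differentiableAt, ?_⟩
      rw [hdd]
      exact hg
    · unfold d2
      rw [hde, hdd]

end Pool.Agent.helper90.DH
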