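import Pool.Agent.helper81.DH.SpecZ

/-! # M5Z.ZCO (helper18): the core theorem without the modulus of continuity -/

set_option autoImplicit false

open Filter Topology
open scoped commutatorElement
open Pool.Agent.helper64.D2

namespace M5Z

theorem ZCO (hZCH : ZCH_stmt) (hZPL : ZPL_stmt) (hKRS : KRS_stmt) (hADM : ADM_stmt) (hKTH : KTH_stmt) : ZCO_stmt := by
  obtain ⟨n0, c, hC⟩ := hZCH
  obtain ⟨n0', hP⟩ := hZPL c
  refine ⟨1 / 2 ^ (max n0 n0'), by positivity, ?_⟩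
  intro f X hR hX hs h2
  obtain ⟨V, U, W, F, XF, hV, hU, hW, hF, hVe⟩ := hC (max n0 n0') (le_max_left _ _) f X hR hX hs h2
  have hpl := hP (max n0 n0') (le_max_right _ _) F XF hF
  obtain ⟨hmul, hinv, hsh, -, -⟩ := hADM
  set y : ℕ → DD := Pi.mulSingle 2 f * place (kz (max n0 n0')) F with hy
  have hcom : ⁅U, W⁆ = U * W * U⁻¹ * W⁻¹ := rfl
  have hcA : Adm ⁅U, W⁆ := by
    rw [hcom]
    exact hmul _ _ (hmul _ _ (hmul _ _ hU hW) (hinv _ hU)) (hinv _ hW)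
  have hcK : ⁅U, W⁆ ∈ K0 := Subgroup.subset_closure (Or.inl ⟨U, W, hU, hW, hcom⟩)
  have hx : ⁅U, W⁆⁻¹ * V = sh V * y := by
    conv_lhs => rw [hVe]
    group
  have hye : y = (sh V)⁻¹ * (⁅U, W⁆⁻¹ * V) := by
    rw [hx]
    group
  have hyA : Adm y := by
    rw [hye]
    exact hmul _ _ (hinv _ (hsh _ hV)) (hmul _ _ (hinv _ hcA) hV)
  have h1 := hKRS _ y V hV hyA hx
  have h3 : y⁻¹ ∈ K0 := by
    have h4 := K0.mul_mem hcK h1
    have e : ⁅U, W⁆ * (⁅U, W⁆⁻¹ * y⁻¹) = y⁻¹ := by group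
    rw [e] at h4
    exact h4
  have h5 : y ∈ K0 := by
    have h4 := K0.inv_mem h3
    rw [inv_inv] at h4
    exact h4
  have h6 : Pi.mulSingle 2 f ∈ K0 := by
    have h4 := K0.mul_mem h5 (K0.inv_mem hpl)
    have e : y * (place (kz (max n0 n0')) F)⁻¹ = Pi.mulSingle 2 f := by
      rw [hy]
      group
    rw [e] at h4
    exact h4
  exact hKTH.2 _ h6

end M5Z
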