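import Pool.Agent.helper20.DH.NCA
import Pool.Agent.helper13.DH.NSZ
import Pool.Agent.helper58.DH.NLP
import Pool.Agent.helper30.DH.CLC
import Pool.Agent.helper33.DH.LPC
import Pool.Agent.helper77.DH.CLI
import Pool.Agent.helper13.DH.QPR
import Pool.Agent.helper34.DH.FPR
import Pool.Agent.helper74.DH.EXI
import Pool.Agent.helper2.DH.COC
import Pool.Agent.helper79.DH.SZR
import Pool.Agent.helper15.DH.MRS
import Pool.Agent.helper87.DH.MCI
import Pool.Agent.helper53.DH.TBA
import Pool.Agent.helper93.DH.TCL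
import Pool.Agent.helper58.DH.LRI
import Pool.Agent.helper89.DH.LRR
import Pool.Agent.helper21.DH.DRR
import Pool.Agent.helper75.DH.MDI
import Pool.Agent.helper65.DH.MFS
import Pool.Agent.helper29.DH.MDS
import Pool.Agent.helper51.DH.MBD
import Pool.Agent.helper13.D2.SZC
import Pool.Agent.helper57.D2.DIF
import Pool.Agent.helper70.D2.BAS

/-! # PART M, assembly (helper18): BDD, RES, CID, DST, FST of Iface, without hypotheses -/

set_option autoImplicit false

namespace Pool.Agent.helper90.DH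

open Pool.Agent.helper64.D2

theorem AllM_SZC : SZC_stmt := SZC
theorem AllM_LPC : LPC_stmt := LPC SZC NCA
theorem AllM_NSZ : NSZ_stmt := NSZ SZC NCA
theorem AllM_NLP : NLP_stmt := NLP SZC
theorem AllM_CLC : CLC_stmt := CLC NCA
theorem AllM_CLI : CLI_stmt := CLI SZC NCA
theorem AllM_QPR : QPR_stmt := QPR SZC BAS
theorem AllM_FPR : FPR_stmt := FPR AllM_QPR AllM_LPC
theorem AllM_EXI : EXI_stmt := EXI DIF BAS
theorem AllM_COC : COC_stmt := COC NCA
theorem AllM_SZR : SZR_stmt := SZR SZC NCA AllM_NSZ AllM_QPR AllM_COC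
theorem AllM_TBA : TBA_stmt := TBA NCA AllM_LPC
theorem AllM_TCL : TCL_stmt := TCL AllM_CLC AllM_CLI AllM_LPC
theorem AllM_LRI : LRI_stmt := LRI SZC NCA AllM_NLP
theorem AllM_LRR : LRR_stmt := LRR NCA AllM_NSZ AllM_NLP
theorem AllM_DRR : DRR_stmt := DRR AllM_CLC
theorem AllM_MDI : MDI_stmt := MDI DIF SZC
theorem AllM_BDD : BDD_stmt := MBD AllM_EXI AllM_SZR
theorem AllM_RES : RES_stmt := MRS AllM_COC AllM_SZR AllM_QPR AllM_NSZ NCA SZC
theorem AllM_CID : CID_stmt := MCI AllM_SZR SZC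
theorem AllM_DST : DST_stmt := MDS SZC AllM_SZR AllM_FPR AllM_LPC AllM_LRI AllM_MDI AllM_TBA AllM_TCL AllM_DRR AllM_LRR AllM_CLC AllM_CLI
theorem AllM_FST : FST_stmt := MFS

end Pool.Agent.helper90.DH
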