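import Pool.Agent.helper57.DH.SpecL

/-! # Part L, row LEP (helper18): Es is the orthogonal projection -/

set_option autoImplicit false

open Filter Topology MeasureTheory
open scoped commutatorElement

namespace Pool.Agent.helper90.DH

open Pool.Agent.helper64.D2

theorem LEP_ci (s : ℕ) (k : ℤ) (x : ℝ) (hx : x ∈ cell s k) : ci s x = k := by
  have hs : (0 : ℝ) < 2 ^ s := by positivity
  unfold ci
  rw [Int.floor_eq_iff]
  obtain ⟨h1, h2⟩ := hx
  rw [div_le_iff₀ hs] at h1
  rw [lt_div_iff₀ hs] at h2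
  constructor
  · linarith
  · linarith

theorem LEP_cell (s : ℕ) (f g : ℝ → ℝ) (hf : Integrable f) (hg : Integrable g) (k : ℤ) (htg : IntegrableOn (fun t => (t - ((k : ℝ) + 1 / 2) / 2 ^ s) * g t) (cell s k)) :
    (∫ x in cell s k, Es s f x * g x) = 2 ^ s * (∫ t in cell s k, f t) * (∫ t in cell s k, g t) +
      12 * 2 ^ (3 * s) * (∫ t in cell s k, (t - ((k : ℝ) + 1 / 2) / 2 ^ s) * f t) * ∫ t in cell s k, (t - ((k : ℝ) + 1 / 2) / 2 ^ s) * g t := by
  have hm : MeasurableSet (cell s k) := measurableSet_Ico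
  have e : ∫ x in cell s k, Es s f x * g x = ∫ x in cell s k, (2 ^ s * (∫ t in cell s k, f t) * g x +
      12 * 2 ^ (3 * s) * (∫ t in cell s k, (t - ((k : ℝ) + 1 / 2) / 2 ^ s) * f t) * ((x - ((k : ℝ) + 1 / 2) / 2 ^ s) * g x)) := by
    apply setIntegral_congr_fun hm
    intro x hx
    have hc := LEP_ci s k x hx
    simp only [Es, mid, hc]
    ring
  rw [e, integral_add (hg.integrableOn.const_mul _) (htg.const_mul _), integral_const_mul, integral_const_mul]

theorem LEP (hLBM : LBM_stmt) (hLEA : LEA_stmt) (hLCE : LCE_stmt) : LEP_stmt := by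
  obtain ⟨b1, b2, -, b4, -, -⟩ := hLBM
  obtain ⟨-, a2, a3, a4, a5, a6, -⟩ := hLEA
  obtain ⟨c1, -⟩ := hLCE
  have hint : ∀ (s : ℕ) (k : ℤ) (g : ℝ → ℝ), BM g → IntegrableOn (fun t => (t - ((k : ℝ) + 1 / 2) / 2 ^ s) * g t) (cell s k) := by
    intro s k g hg
    have hs : (0 : ℝ) < 2 ^ s := by positivity
    obtain ⟨hm, ⟨B, hB⟩, h0⟩ := hg
    apply Measure.integrableOn_of_bounded (M := (1 / 2 ^ s) * B)
    · unfold cell
      rw [Real.volume_Ico]
      exact ENNReal.ofReal_ne_top
    · exact ((measurable_id.sub_const _).mul hm).aestronglyMeasurable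
    · filter_upwards [self_mem_ae_restrict (measurableSet_Ico : MeasurableSet (cell s k))] with t ht
      rw [Real.norm_eq_abs, abs_mul]
      apply mul_le_mul _ (hB t) (abs_nonneg _) (by positivity)
      obtain ⟨h1, h2⟩ := ht
      have e1 : ((k : ℝ) + 1 / 2) / 2 ^ s = (k : ℝ) / 2 ^ s + (1 / 2) * (1 / 2 ^ s) := by ring
      have e2 : ((k : ℝ) + 1) / 2 ^ s = (k : ℝ) / 2 ^ s + 1 / 2 ^ s := by ring
      rw [e2] at h2
      have h3 : (0 : ℝ) < 1 / 2 ^ s := by positivity
      rw [e1, abs_le]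
      constructor
      · linarith
      · linarith
  have sa : ∀ (s : ℕ) (f g : ℝ → ℝ), BM f → BM g → ∫ x, Es s f x * g x = ∫ x, f x * Es s g x := by
    intro s f g hf hg
    have hEf := (b4 s f hf).1
    have hEg := (b4 s g hg).1
    have h1 : BM (fun x => Es s f x * g x) := (b1 _ _ hEf hg).2.2
    have h2 : BM (fun x => f x * Es s g x) := (b1 _ _ hf hEg).2.2
    have key : ∀ k : ℤ, (∫ x in cell s k, Es s f x * g x) = ∫ x in cell s k, f x * Es s g x := by
      intro k
      have h3 := LEP_cell s f g (b2 1 f hf).2.2 (b2 1 g hg).2.2 k (hint s k g hg)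
      have h4 := LEP_cell s g f (b2 1 g hg).2.2 (b2 1 f hf).2.2 k (hint s k f hf)
      have h5 : (∫ x in cell s k, f x * Es s g x) = ∫ x in cell s k, Es s g x * f x := by
        congr 1
        funext x
        ring
      rw [h5, h3, h4]
      ring
    exact le_antisymm (c1 s _ _ h1 h2 (fun k => (key k).le)) (c1 s _ _ h2 h1 (fun k => (key k).ge))
  have py : ∀ (s : ℕ) (f : ℝ → ℝ), BM f → nsq f = nsq (Es s f) + nsq (fun x => f x - Es s f x) := by
    intro s f hf
    have hEf := (b4 s f hf).1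
    have hff : Integrable (fun x => f x * f x) := (b2 1 _ ((b1 _ _ hf hf).2.2)).2.2
    have hfE : Integrable (fun x => f x * Es s f x) := (b2 1 _ ((b1 _ _ hf hEf).2.2)).2.2
    have hEE : Integrable (fun x => Es s f x * Es s f x) := (b2 1 _ ((b1 _ _ hEf hEf).2.2)).2.2
    have h1 : (∫ x, Es s f x * Es s f x) = ∫ x, f x * Es s f x := by
      rw [sa s f (Es s f) hf hEf]
      congr 1
      funext x
      rw [a3 s (Es s f) (a2 s f) x]
    have h2 : nsq (fun x => f x - Es s f x) = (∫ x, f x * f x) - 2 * (∫ x, f x * Es s f x) + ∫ x, Es s f x * Es s f x := by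
      unfold nsq
      have h6 : Integrable (fun x => f x * f x - 2 * (f x * Es s f x)) := hff.sub (hfE.const_mul 2)
      rw [← integral_const_mul, ← integral_sub hff (hfE.const_mul 2), ← integral_add h6 hEE]
      congr 1
      funext x
      ring
    have h3 : nsq f = ∫ x, f x * f x := by
      unfold nsq
      congr 1
      funext x
      ring
    have h4 : nsq (Es s f) = ∫ x, Es s f x * Es s f x := by
      unfold nsq
      congr 1
      funext x
      ring
    rw [h2, h3, h4, h1]
    ring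
  refine ⟨sa, py, ?_⟩
  intro s f g hf hg hpa
  have hF : BM (fun x => f x - g x) := (b1 f g hf hg).2.1
  have h1 := py s (fun x => f x - g x) hF
  have h2 : (fun x => (fun x => f x - g x) x - Es s (fun x => f x - g x) x) = fun x => f x - Es s f x := by
    funext x
    have h3 := (a4 s f g hf hg x).2
    have h4 := a3 s g hpa x
    simp only [h3, h4]
    ring
  rw [h2] at h1
  have h5 : 0 ≤ nsq (Es s (fun x => f x - g x)) := integral_nonneg (fun x => sq_nonneg _)
  linarith

end Pool.Agent.helper90.DH
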