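import Pool.Agent.helper90.DH.Iface

/-!
# Project dh: (MP_5823cb_al), PART M (maps: group estimates, digit step, flow step), spec by helper18

Decomposition of `BDD, RES, CID, DST, FST` of `Pool/Agent/helper90/DH/Iface.lean`. Rows `d2:M…`.
RULES. Module `XX`: file `Pool/Agent/<seat>/DH/XX.lean`, `import Pool.Agent.helper18.DH.SpecM` (and, if you like, files of D2: `Pool.Agent.helper13.D2.SZC` (`SZC : SZC_stmt`, sizes of products and inverses), `Pool.Agent.helper57.D2.DIF`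
(`DIF`: `id + X` is in `DD`), `Pool.Agent.helper70.D2.BAS` (`BAS`)), `set_option autoImplicit false`, `open Filter Topology MeasureTheory`, `open scoped commutatorElement`, `namespace Pool.Agent.helper90.DH`, `open Pool.Agent.helper64.D2`,
`theorem XX (hYY : YY_stmt) … : XX_stmt`. Hypotheses: the statements listed under `uses` (any other statement of this file without a circle is allowed). Auxiliary lemmas prefixed `XX_`. No `sorry`, no double quotes, no `#` commands.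

NOTATION in the proofs: `g' = deriv (ev g)`, `g'' = d2 (ev g)`, `N(g) = Nn g = g''/g'`, `g_i = (G i)⁻¹`, `F_i = Fm Q i`, `E_i = Em G R i`, `C_i = Cm G Q R i = (Q (i+1))⁻¹ * E_i`. `Sz g a` (`|g''| ≤ a`) implies `0 ≤ a`, `|g' - 1| ≤ a`, `|g - id| ≤ a` (SZC, part 2).
All maps are `C^2` diffeomorphisms of the line, the identity outside `(0,1)`.
-/

set_option autoImplicit false

open Filter Topology MeasureTheory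
open scoped commutatorElement

namespace Pool.Agent.helper90.DH

open Pool.Agent.helper64.D2

/-- `N(g) = g''/g'`. -/
noncomputable def Nn (g : DD) (x : ℝ) : ℝ := d2 (ev g) x / deriv (ev g) x

/-- `F_i = Q_i Q_(i+1)⁻¹`. -/
def Fm (Q : ℕ → DD) (i : ℕ) : DD := Q i * (Q (i + 1))⁻¹

/-- `E_i = G_i R_(i+1)`. -/
def Em (G R : ℕ → DD) (i : ℕ) : DD := G i * R (i + 1)

/-- `C^2` closeness. -/
def Cl (f g : DD) (t0 t1 t2 : ℝ) : Prop := ∀ x : ℝ, |ev f x - ev g x| ≤ t0 ∧ |deriv (ev f) x - deriv (ev g) x| ≤ t1 ∧ |d2 (ev f) x - d2 (ev g) x| ≤ t2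

/-! ## Calculus -/

/-- **NCA** (medium). Calculus of `g''/g'`. uses: nothing.
Proof. `ev g` and `ev g⁻¹` are `C^2` and inverse to each other (`ev_contDiff`, `ev_inv`, `ev_inv'`): `(g⁻¹)'(g x) g'(x) = 1`, and `g' ≥ 0` (monotone), so `g' > 0`. Chain rule for `ev (g * h) = ev g ∘ ev h`, derivative of a product for `d2`; formulas of the inverse: differentiate
`(g⁻¹)' = 1/g'(g⁻¹)`. `N(g h) = (g''(h) h'^2 + g'(h) h'')/(g'(h) h') = N(g)(h) h' + N(h)`. See the lemmas in `Pool/Agent/helper13/D2/SZC.lean`. -/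
def NCA_stmt : Prop := (∀ (g : DD) (x : ℝ), 0 < deriv (ev g) x) ∧
  (∀ (g h : DD) (x : ℝ), deriv (ev (g * h)) x = deriv (ev g) (ev h x) * deriv (ev h) x) ∧
  (∀ (g h : DD) (x : ℝ), d2 (ev (g * h)) x = d2 (ev g) (ev h x) * deriv (ev h) x ^ 2 + deriv (ev g) (ev h x) * d2 (ev h) x) ∧
  (∀ (g : DD) (x : ℝ), deriv (ev g⁻¹) x = 1 / deriv (ev g) (ev g⁻¹ x)) ∧
  (∀ (g : DD) (x : ℝ), d2 (ev g⁻¹) x = -(d2 (ev g) (ev g⁻¹ x) / deriv (ev g) (ev g⁻¹ x) ^ 3)) ∧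
  (∀ (g : DD) (x : ℝ), d2 (ev g) x = Nn g x * deriv (ev g) x) ∧
  (∀ (g h : DD) (x : ℝ), Nn (g * h) x = Nn g (ev h x) * deriv (ev h) x + Nn h x) ∧
  (∀ (g : DD) (x : ℝ), Nn g⁻¹ x = -(Nn g (ev g⁻¹ x) * deriv (ev g⁻¹) x)) ∧
  ∀ x : ℝ, Nn 1 x = 0 ∧ deriv (ev 1) x = 1 ∧ d2 (ev 1) x = 0

/-- **NSZ** (short/medium). Sizes and `N`. uses: SZC, NCA.
Proof. (1) `|g''/g'| ≤ a/(1-a)`. (2) Let `S` be the supremum of `|g''|` (finite: SZC, part 5). `|g'| ≤ 1 + S` (SZC, part 2), so `|g''| = |N| g' ≤ b (1 + S)`, hence `S ≤ b (1 + S)`, `S ≤ b/(1-b) ≤ b (1 + 2b)`. -/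
def NSZ_stmt : Prop := (∀ (g : DD) (a : ℝ), Sz g a → a ≤ 1 / 8 → ∀ x, |Nn g x| ≤ a * (1 + 2 * a)) ∧
  ∀ (g : DD) (b : ℝ), (∀ x, |Nn g x| ≤ b) → b ≤ 1 / 8 → Sz g (b * (1 + 2 * b))

/-- **NLP** (short/medium). Lipschitz constants and `N`. uses: SZC, NCA.
Proof. `g'` is `a`-Lipschitz, `7/8 ≤ g' ≤ 9/8`. (1) `|g''(x)/g'(x) - g''(y)/g'(y)| ≤ (L/(1-a) + a^2/(1-a)^2) |x-y|`. (2) `g'' = N(g) g'`: `(L (1+a) + a^2/(1-a)) |x-y|`. -/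
def NLP_stmt : Prop := (∀ (g : DD) (a L : ℝ), Sz g a → a ≤ 1 / 8 → Lp g L → ∀ x y : ℝ, |Nn g x - Nn g y| ≤ (2 * L + 1) * |x - y|) ∧
  ∀ (g : DD) (a L : ℝ), Sz g a → a ≤ 1 / 8 → (∀ x y : ℝ, |Nn g x - Nn g y| ≤ L * |x - y|) → Lp g (2 * L + 1)

/-- **LPC** (short/medium). Lipschitz constants of second derivatives. uses: SZC, NCA.
Proof. `(g h)'' = g''(h) h'^2 + g'(h) h''`: Lipschitz constant `L (1+a)^3 + 2 a^2 (1+a) + a^2 (1+a) + (1+a) M`. `(g⁻¹)'' = - g''(y)/g'(y)^3`, `y = g⁻¹ x`: `(L/(1-a)^3 + 3 a^2/(1-a)^4)/(1-a)`. (`L, M ≥ 0` follow from `Lp`.) -/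
def LPC_stmt : Prop := (∀ (g h : DD) (a L M : ℝ), a ≤ 1 / 100 → Sz g a → Sz h a → Lp g L → Lp h M → Lp (g * h) (2 * L + 2 * M + 1)) ∧
  ∀ (g : DD) (a L : ℝ), a ≤ 1 / 100 → Sz g a → Lp g L → Lp g⁻¹ (2 * L + 1)

/-- **CLC** (medium). Closeness of compositions. uses: SZC, NCA.
Proof. Write `f1 = f'` (derivative) etc. Value: `[f'(g' x) - f(g' x)] + [f(g' x) - f(g x)]`. First derivative: `[D f'(g') - D f(g')] D g' + [D f(g') - D f(g)] D g' + D f(g) [D g' - D g]`, bounds `s1 (1+δ) + a t0 (1+a) + (1+a) t1`. Second derivative: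
`[D2 f'(g') - D2 f(g')] (D g')^2 + [D2 f(g') - D2 f(g)] (D g')^2 + D2 f(g) [(D g')^2 - (D g)^2] + [D f'(g') - D f(g')] D2 g' + [D f(g') - D f(g)] D2 g' + D f(g) [D2 g' - D2 g]`,
bounds `s2 (1+δ)^2 + M t0 (1+a)^2 + a t1 (2+2a) + s1 a + a t0 a + (1+a) t2`. (All of `a, s0, .., t2` are `≥ 0` automatically.) -/
def CLC_stmt : Prop := ∀ (f f' g g' : DD) (a M δ s0 s1 s2 t0 t1 t2 : ℝ), a ≤ 1 / 100 → 0 ≤ M → 0 ≤ δ → Sz f a → Sz g a → Sz g' a → Lp f M →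
  (∀ x, |deriv (ev g') x - 1| ≤ δ) → Cl f' f s0 s1 s2 → Cl g' g t0 t1 t2 →
  Cl (f' * g') (f * g) (s0 + 2 * t0) ((1 + δ) * s1 + 2 * t1 + t0) ((1 + δ) ^ 2 * s2 + s1 + 2 * t2 + t1 + 2 * M * t0 + t0)

/-- **CLI** (medium). Closeness of inverses. uses: SZC, NCA.
Proof. `y' = f'⁻¹ x`, `y = f⁻¹ x`: `|f(y') - f(y)| = |f(y') - f'(y')| ≤ s0`, so `|y' - y| ≤ s0/(1-a)`. `|1/D f'(y') - 1/D f(y)| ≤ (s1 + a |y' - y|)/(1-a)^2`. Second: `|D2 f'(y')/(D f'(y'))^3 - D2 f(y)/(D f(y))^3| ≤ |D2 f'(y') - D2 f(y)|/(1-a)^3 + a |1/(D f'(y'))^3 - 1/(D f(y))^3|`,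
`|D2 f'(y') - D2 f(y)| ≤ s2 + M |y' - y|`. -/
def CLI_stmt : Prop := ∀ (f f' : DD) (a M s0 s1 s2 : ℝ), a ≤ 1 / 100 → 0 ≤ M → Sz f a → Sz f' a → Lp f M → Cl f' f s0 s1 s2 →
  Cl f'⁻¹ f⁻¹ (2 * s0) (2 * s1 + s0) (2 * s2 + s1 + 2 * M * s0 + s0)

/-! ## The maps `Q_i`, `F_i`; existence -/

/-- **QPR** (medium). uses: SZC, BAS, NCA.
Proof. `Q_i = id + Σ_(i ≤ k < q) Y_k` on functions (`IsQ`), SZC part 1 gives `d2 (ev (Q i)) = Σ d2 (Y k)` (finite sums of `C^2` functions), so `|Q_i''| ≤ (q-i) ε/q ≤ ε`; Lipschitz constant `(q-i) L ≤ q L` (`L ≥ 0` from `FLW`, `1 ≤ q`). `|Y_i'| ≤ (ε/q)(3/5)`, `|Y_i| ≤ ε/q` (BAS, support `[1/5,4/5]`).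
`N(Q_i) - N(Q_(i+1)) = Y_i''/Q_i' - Q_(i+1)'' Y_i'/(Q_i' Q_(i+1)')`; `|Y_i''/Q_i' - Y_i''| ≤ (ε/q) ε/(1-ε)`, the second term is at most `ε (ε/q)/(1-ε)^2`. `Q_q = id + 0`. -/
def QPR_stmt : Prop := ∀ (q : ℕ) (Y : ℕ → ℝ → ℝ) (Q : ℕ → DD) (ε d L : ℝ), 1 ≤ q → FLW q Y ε d L → 0 ≤ ε → ε ≤ 1 / 100 → IsQ q Y Q →
  (∀ i ≤ q, Sz (Q i) ε ∧ Lp (Q i) (q * L)) ∧ Q q = 1 ∧
  ∀ i < q, ∀ x, |deriv (Y i) x| ≤ ε / q ∧ |Y i x| ≤ ε / q ∧ |Nn (Q i) x - Nn (Q (i + 1)) x| ≤ 2 * ε / q ∧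
    |Nn (Q i) x - Nn (Q (i + 1)) x - d2 (Y i) x| ≤ 4 * ε ^ 2 / q ∧ ev (Q i) x = ev (Q (i + 1)) x + Y i x

/-- **FPR** (medium). uses: QPR, SZC, NCA, LPC.
Proof. `φ = Q_(i+1)⁻¹`, `F_i x = Q_i (φ x) = Q_(i+1)(φ x) + Y_i (φ x) = x + Y_i (φ x)`. `φ' ≤ 1/(1-ε)`, `|φ''| ≤ 2ε` (SZC), Lipschitz constant of `φ''`: `2 q L + 1` (LPC). `F_i' - 1 = Y_i'(φ) φ'`; `F_i'' = Y_i''(φ) φ'^2 + Y_i'(φ) φ''`, `|F_i''| ≤ (ε/q)(1.03) + (ε/q)(2ε) ≤ 2ε/q`; Lipschitz: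
`L φ'^3 + (ε/q) 2 φ' |φ''| + (ε/q) φ' |φ''| + (ε/q) (2 q L + 1) ≤ 3L` (`|Y_i'| ≤ ε/q` from QPR, `1 ≤ L`). -/
def FPR_stmt : Prop := ∀ (q : ℕ) (Y : ℕ → ℝ → ℝ) (Q : ℕ → DD) (ε d L : ℝ), 1 ≤ q → FLW q Y ε d L → 0 ≤ ε → ε ≤ 1 / 100 → 1 ≤ L → IsQ q Y Q →
  ∀ i < q, (∀ x, ev (Fm Q i) x = x + Y i (ev (Q (i + 1))⁻¹ x)) ∧ (∀ x, |ev (Fm Q i) x - x| ≤ d ∧ |deriv (ev (Fm Q i)) x - 1| ≤ 2 * d) ∧
    Sz (Fm Q i) (2 * ε / q) ∧ Lp (Fm Q i) (3 * L)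

/-- **EXI** (short/medium). Existence of `Q` and `R`. uses: DIF, BAS.
Proof. `Σ_(i ≤ k < q) Y_k` is `C^2`, zero outside `[1/5,4/5]`, second derivative `≤ ε ≤ 1/4`, first derivative `≤ ε` (BAS): DIF gives `Q_i` (`i ≤ q`; `Q_i = 1` for `i > q`). `R_i := r (q - i)` with `r 0 = 1`, `r (j+1) = (G i)⁻¹ * (Q i * (Q (i+1))⁻¹) * G i * r j`, `i = q - (j+1)`. -/
def EXI_stmt : Prop := ∀ (q : ℕ) (Y : ℕ → ℝ → ℝ) (G : ℕ → DD) (ε d L : ℝ), 1 ≤ q → FLW q Y ε d L → 0 ≤ ε → ε ≤ 1 / 4 → ∃ Q R : ℕ → DD, IsQ q Y Q ∧ IsR q G Q R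

/-! ## The cocycle identity, sizes, residual -/

/-- **COC** (medium). The identity (2.1). uses: NCA.
Proof. Downward induction on `i` (`R_q = 1`, `Nn 1 = 0`). `R_i = g F E`, `g = (G i)⁻¹`, `F = F_i`, `E = E_i = G_i R_(i+1)`. `N(g F E) = N(g)(F E) (F E)' + N(F)(E) E' + N(E)`, `(F E)' = F'(E) E'`; `N(E) = N(G_i)(R_(i+1)) R_(i+1)' + N(R_(i+1))` and `N(G_i) = - N(g)(G_i) G_i'` (because `G_i = g⁻¹`), so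
`N(G_i)(R_(i+1)) R_(i+1)' = - N(g)(E) E'`. `N(F)(y) = [N(Q_i) - N(Q_(i+1))](Q_(i+1)⁻¹ y) (Q_(i+1)⁻¹)'(y)`, and at `y = E x`: `Q_(i+1)⁻¹ E x = C_i x`, `(Q_(i+1)⁻¹)'(E x) E' x = C_i' x`. -/
def COC_stmt : Prop := ∀ (q : ℕ) (G Q R : ℕ → DD), IsR q G Q R → ∀ i ≤ q, ∀ x : ℝ, Nn (R i) x = ∑ k ∈ Finset.Ico i q,
  ((Nn (Q k) (ev (Cm G Q R k) x) - Nn (Q (k + 1)) (ev (Cm G Q R k) x)) * deriv (ev (Cm G Q R k)) x +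
    (Nn (G k)⁻¹ (ev (Fm Q k) (ev (Em G R k) x)) * deriv (ev (Fm Q k)) (ev (Em G R k) x) - Nn (G k)⁻¹ (ev (Em G R k) x)) * deriv (ev (Em G R k)) x)

/-- **SZR** (medium). The sizes, for given `Q`, `R`. uses: COC, QPR, NSZ, NCA, SZC.
Proof. Downward induction: `Sz (R_i) (16 (ε + q γ))` (`K = 2000`, say, so this is `≤ 1/100`). If it holds for all `k > i` then `E_k = G_k R_(k+1)` (`k ≥ i`) has size `≤ 1/20`, `C_k = Q_(k+1)⁻¹ E_k` has size `≤ 1/10`, derivatives `≤ 11/10`. In COC: first terms `≤ (2ε/q)(11/10)` (QPR), second terms: `Sz (G_k)⁻¹ (2γ)`,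
`|N| ≤ 3γ` (NSZ; `γ ≤ 1/8`), `|F_k'| ≤ 11/10` (`F_k = Q_k Q_(k+1)⁻¹`, size `≤ 4ε`), so `≤ 7γ·(11/10)`. Sum over `k`: `|N(R_i)| ≤ 3ε + 8 q γ ≤ 8(ε + qγ)`, NSZ: `Sz (R_i) (16 (ε+qγ))`. Then the sizes of the products by SZC. -/
def SZR_stmt : Prop := ∃ K : ℝ, 1 ≤ K ∧ ∀ (q : ℕ) (Y : ℕ → ℝ → ℝ) (G Q R : ℕ → DD) (ε d L γ : ℝ), 1 ≤ q → FLW q Y ε d L → 0 ≤ ε → 0 ≤ γ → K * (ε + q * γ) ≤ 1 →
  (∀ i < q, Sz (G i) γ) → IsQ q Y Q → IsR q G Q R → (∀ i ≤ q, Sz (Q i) ε ∧ Sz (R i) (K * (ε + q * γ))) ∧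
    ∀ i < q, Sz ((Q (i + 1))⁻¹) (K * ε) ∧ Sz (G i * R (i + 1)) (K * (ε + q * γ)) ∧ Sz (Cm G Q R i) (K * (ε + q * γ))

/-- **MBD** (short): `BDD_stmt` of `Iface.lean`. File `MBD.lean`, `theorem MBD … : BDD_stmt`. uses: EXI, SZR. -/
def MBD_stmt : Prop := BDD_stmt

/-- **MRS** (medium): `RES_stmt` of `Iface.lean`. File `MRS.lean`, `theorem MRS … : RES_stmt`. uses: COC, SZR, QPR, NSZ, NCA, SZC.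
Proof. `a = K0 (ε + q γ)`, `K0` of SZR, `K` large so that `a ≤ 1/100`. COC with `i = 0`: the second terms are together `≤ 8 q γ` (see SZR). First terms: `[N(Q_k) - N(Q_(k+1))](z) C_k' = Y_k''(z) + O(4ε^2/q) C_k' + Y_k''(z)(C_k' - 1)`, `z = C_k x`, `|Y_k''| ≤ ε/q`, `|C_k' - 1| ≤ a`: the sum over `k` differs from
`Σ Y_k''(C_k x)` by at most `8 ε^2 + ε a`. And `R_0'' = N(R_0) R_0'`, `|N(R_0)| ≤ 2a`, `|R_0' - 1| ≤ a`. Total `≤ 8qγ + 8ε^2 + εa + 2a^2`. -/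
def MRS_stmt : Prop := RES_stmt

/-- **MCI** (medium): `CID_stmt` of `Iface.lean`. File `MCI.lean`, `theorem MCI … : CID_stmt`. uses: SZR, QPR, SZC.
Proof. `P_i = R_0 R_i⁻¹`, `V_i = P_i Q_i` for `i ≤ q`. `R_i = g_i F_i G_i R_(i+1)`, so `P_(i+1) = P_i g_i F_i G_i`, `V_(i+1) = P_i g_i F_i G_i Q_(i+1)`, `V_i = P_i F_i Q_(i+1)`: `V_(i+1) V_i⁻¹ = P_i ⁅g_i, F_i⁆ P_i⁻¹ = ⁅u_i, v_i⁆`, `u_i = P_i g_i P_i⁻¹`, `v_i = P_i F_i P_i⁻¹` (`u_q = v_q = 1`, `V_i` arbitrary for `i > q`).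
`Q_q = 1`, `R_q = 1`, so `V_0 = Q_0`, `V_q = R_0`. Sizes by SZC (products of at most six elements of size `≤ K0 (ε + qγ)`, `γ ≤ ε + qγ`). -/
def MCI_stmt : Prop := CID_stmt

/-! ## The step maps `T = E⁻¹ F E` -/

/-- **TBA** (medium). uses: SZC, NCA, LPC.
Proof. `T x = E⁻¹(F(E x))`, `|E⁻¹ u - E⁻¹ v| ≤ |u - v|/(1-a)`: `|T x - x| ≤ d/(1-a)`. `T' x = F'(E x) E'(x)/E'(T x)`, `|E'(x) - E'(T x)| ≤ 2 a d`, so `|T' - 1| ≤ 2d + (1+2d) 2ad/(1-a) ≤ 4d`. Size: `(2a, a, a)` with SZC. Lipschitz: LPC three times. -/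
def TBA_stmt : Prop := ∀ (E F : DD) (a d M : ℝ), a ≤ 1 / 1000 → 0 ≤ d → d ≤ 1 / 1000 → 1 ≤ M → Sz E a → Sz F a →
  (∀ x, |ev F x - x| ≤ d ∧ |deriv (ev F) x - 1| ≤ 2 * d) →
  (∀ x, |ev (E⁻¹ * F * E) x - x| ≤ 2 * d ∧ |deriv (ev (E⁻¹ * F * E)) x - 1| ≤ 4 * d) ∧ Sz (E⁻¹ * F * E) (5 * a) ∧
  (Lp E M → Lp F M → Lp (E⁻¹ * F * E) (30 * M))

/-- **TCL** (medium). uses: CLC, CLI, LPC, SZC.
Proof. `Cl (F * E') (F * E) (2 τ0) (2 τ1 + τ0) (2 τ2 + τ1 + 2 M τ0 + τ0)` (CLC with `f' = f = F`), `Cl E'⁻¹ E⁻¹ (2 τ0) (2 τ1 + τ0) (2 τ2 + τ1 + 2 M τ0 + τ0)` (CLI), then CLC with `f' = E'⁻¹`, `f = E⁻¹` (`Lp` constant `2M + 1 ≤ 3M`), `g' = F * E'`, `g = F * E` (sizes `≤ 3a ≤ 1/100`), `δ = 1`. -/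
def TCL_stmt : Prop := ∃ K : ℝ, 1 ≤ K ∧ ∀ (E E' F : DD) (a M τ0 τ1 τ2 : ℝ), a ≤ 1 / 1000 → 1 ≤ M → Sz E a → Sz E' a → Sz F a → Lp E M → Lp F M →
  Cl E' E τ0 τ1 τ2 → Cl (E'⁻¹ * F * E') (E⁻¹ * F * E) (K * τ0) (K * (τ1 + τ0)) (K * (τ2 + τ1 + M * τ0))

/-- **LRI** (medium). Lipschitz constants, left recursion. uses: NCA, NSZ, NLP, SZC.
Proof. `N(R_i) = N(S_i)(R_(i+1)) R_(i+1)' + N(R_(i+1))`. `N(S_i)` is `(2Λ+1)`-Lipschitz (NLP), `|N(S_i)| ≤ 2a`, `R_(i+1)' ≤ 1 + a` is `a`-Lipschitz: the first term has Lipschitz constant `≤ 2 (2Λ+1) + 1`. Downward induction: `N(R_i)` is `q (4Λ+3)`-Lipschitz, NLP. -/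
def LRI_stmt : Prop := ∀ (q : ℕ) (S R : ℕ → DD) (a Λ : ℝ), a ≤ 1 / 100 → 0 ≤ Λ → R q = 1 → (∀ i < q, R i = S i * R (i + 1)) →
  (∀ i < q, Sz (S i) a ∧ Lp (S i) Λ) → (∀ i ≤ q, Sz (R i) a) → ∀ i ≤ q, Lp (R i) (q * (8 * Λ + 6) + 1)

/-- **LRR** (medium). Lipschitz constants, right recursion. uses: NCA, NSZ, NLP, SZC.
Proof. `N(R_i) = N(R_(i+1))(T_i) T_i' + N(T_i)`. If `N(R_(i+1))` is `λ`-Lipschitz then `N(R_i)` is Lipschitz with constant `(1+δ)^2 λ + (2a) a + (2Λ+1) ≤ (1+δ)^2 λ + 2Λ + 2`. Downward induction: `≤ (1+δ)^(2q) q (2Λ+2) ≤ 2 q (2Λ+2)` (`(1+δ)^(2q) ≤ exp (2 q δ) ≤ exp (1/2) ≤ 2`). NLP. -/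
def LRR_stmt : Prop := ∀ (q : ℕ) (T R : ℕ → DD) (a δ Λ : ℝ), a ≤ 1 / 100 → 0 ≤ δ → 4 * (q * δ) ≤ 1 → 0 ≤ Λ → R q = 1 → (∀ i < q, R i = R (i + 1) * T i) →
  (∀ i < q, Sz (T i) a ∧ Lp (T i) Λ ∧ ∀ x, |deriv (ev (T i)) x - 1| ≤ δ) → (∀ i ≤ q, Sz (R i) a) → ∀ i ≤ q, Lp (R i) (q * (8 * Λ + 8) + 1)

/-- **DRR** (medium). Closeness, right recursion. uses: CLC.
Proof. Let `s0_i, s1_i, s2_i` be the bounds for `R'_i`, `R_i` (`0` for `i = q`). CLC with `f' = R'_(i+1)`, `f = R_(i+1)`, `g' = T'_i`, `g = T_i`: `s0_i = s0_(i+1) + 2 t0`, `s1_i = (1+δ) s1_(i+1) + 2 t1 + t0`, `s2_i = (1+δ)^2 s2_(i+1) + s1_(i+1) + 2 t2 + t1 + 2 M t0 + t0`. With `n = q - i`: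
`s0 ≤ 2 n t0`, `s1 ≤ (1+δ)^n n (2 t1 + t0) ≤ 4 q (t1 + t0)`, `s2 ≤ (1+δ)^(2n) n (4q(t1+t0) + 2 t2 + t1 + 2 M t0 + t0) ≤ 12 q^2 (t2 + t1 + (M+1) t0)` (`(1+δ)^(2q) ≤ 2`). -/
def DRR_stmt : Prop := ∀ (q : ℕ) (T T' R R' : ℕ → DD) (a M δ t0 t1 t2 : ℝ), 1 ≤ q → a ≤ 1 / 100 → 0 ≤ M → 0 ≤ δ → 4 * (q * δ) ≤ 1 → R q = 1 → R' q = 1 →
  (∀ i < q, R i = R (i + 1) * T i ∧ R' i = R' (i + 1) * T' i) → (∀ i < q, Sz (T i) a ∧ Sz (T' i) a ∧ Cl (T' i) (T i) t0 t1 t2 ∧ ∀ x, |deriv (ev (T' i)) x - 1| ≤ δ) →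
  (∀ i ≤ q, Sz (R i) a ∧ Lp (R i) M) → 0 ≤ t0 → 0 ≤ t1 → 0 ≤ t2 → ∀ i ≤ q, Cl (R' i) (R i) (2 * q * t0) (4 * q * (t1 + t0)) (12 * q ^ 2 * (t2 + t1 + (M + 1) * t0))

/-! ## The two steps -/

/-- **MDI** (medium). The perturbed maps `E_i + W_i`. uses: DIF, SZC.
Proof. `X = (ev E - id) + W` is `C^2`, zero outside `(0,1)`, `|X'| ≤ a + τ1 ≤ 1/2`: DIF. `E'' + W''`; Lipschitz constants: `M` and `1` (`|W'''| ≤ 1`, mean value theorem). -/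
def MDI_stmt : Prop := ∀ (E : DD) (W : ℝ → ℝ) (a M τ0 τ1 τ2 : ℝ), Sz E a → a ≤ 1 / 100 → τ1 ≤ 1 / 100 → Lp E M → ContDiff ℝ 3 W → (∀ x, x ∉ Set.Icc (1 / 8 : ℝ) (7 / 8) → W x = 0) →
  (∀ x, |W x| ≤ τ0 ∧ |deriv W x| ≤ τ1 ∧ |d2 W x| ≤ τ2 ∧ |deriv (d2 W) x| ≤ 1) →
  ∃ E' : DD, (∀ x, ev E' x = ev E x + W x) ∧ Sz E' (a + τ2) ∧ Lp E' (M + 1) ∧ Cl E' E τ0 τ1 τ2

/-- **MDS** (medium/LONG): `DST_stmt` of `Iface.lean`. File `MDS.lean`, `theorem MDS … : DST_stmt`. uses: SZR, FPR, LPC, LRI, MDI, TBA, TCL, DRR, LRR, CLC, CLI, SZC.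
Proof. `K0` = the constants of SZR, TCL; `K` large. `a0 = K0 (ε + qγ) ≤ 1/10^5` bounds the sizes of `Q_i, R_i, E_i, C_i`, `F_i`; `K q^4 (…) ≤ 1` gives `τ2, τ1 ≤ 1/10^5`. Let `B = Lam + L`.
(1) `S_i = G_i⁻¹ F_i G_i`: `R_i = S_i R_(i+1)`, `Lp (S_i) (30 · 3B)` (TBA with `E = G_i`, `M = 3B`: FPR gives `Lp (F_i) (3L)`), `Sz (S_i) (5 · …) ≤ 1/100`; LRI: `Lp (R_i) (K1 q B)`; LPC: `Lp (E_i) (K2 q B)` for `E_i = G_i R_(i+1)`.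
(2) `E'_i = E_i + W_i` (MDI), sizes `≤ a0 + τ2 ≤ 1/1000`, `Lp (E'_i) (K3 q B)`. `T_i = E_i⁻¹ F_i E_i`, `T'_i = E'_i⁻¹ F_i E'_i`. `R_i = G_i⁻¹ F_i G_i R_(i+1) = R_(i+1) T_i` because `G_i = E_i R_(i+1)⁻¹`. TBA: `|T' - 1| ≤ 4d`, sizes `≤ 1/200`, `Lp (T'_i) (K4 q B)`; TCL with `M = K3 q B`: `Cl T'_i T_i t0 t1 t2`, `t0 = K0 τ0`,
`t1 = K0 (τ1 + τ0)`, `t2 = K0 (τ2 + τ1 + K3 q B τ0)`.
(3) Define `R'_q = 1`, `R'_i = R'_(i+1) T'_i` (recursion as in EXI) and `G'_i = E'_i (R'_(i+1))⁻¹`. Then `IsR q G' Q R'` and `G'_i R'_(i+1) = E'_i`. DRR (`δ = 4d`, `M = K1 q B`): `Cl R'_i R_i r0 r1 r2`, `r0 ≤ K5 q τ0`, `r1 ≤ K5 q (τ1 + τ0)`, `r2 ≤ K5 q^3 (τ2 + τ1 + B τ0)`. So `Sz (R'_i) (a0 + r2)`, `≤ 1/100`. LRR: `Lp (R'_i) (K6 q^2 B)`.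
(4) `G_i = E_i R_(i+1)⁻¹`. CLI for `R'_(i+1)`, `R_(i+1)`, then CLC with `f' = E'_i`, `f = E_i`, `g' = R'_(i+1)⁻¹`, `g = R_(i+1)⁻¹`, `δ = 1`: `|G'_i'' - G_i''| ≤ 4 τ2 + τ1 + K7 (r2 + r1 + q B r0) ≤ K8 q^3 (τ2 + τ1 + τ0 B)`. LPC: `Lp (G'_i) (K9 q^2 B)`. -/
def MDS_stmt : Prop := DST_stmt

/-- **MFS** (medium): `FST_stmt` of `Iface.lean`. File `MFS.lean`, `theorem MFS … : FST_stmt`. uses: SZR, FPR, QPR, TBA, SZC (to get `1 ≤ L` replace `L` by `max L 1` in `FLW`).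
Proof. `φ = Q_(i+1)⁻¹`, `φ' = Q'_(i+1)⁻¹`: `|Q_(i+1) - Q'_(i+1)| ≤ q e`, so `|φ' x - φ x| ≤ 2 q e`. `F_i x = x + Y_i (φ x)` (FPR): `|F'_i - F_i| ≤ e + d · 2 q e ≤ 2e` (`q d ≤ 1/2`). `S_i = G_i⁻¹ F_i G_i`: `|S'_i - S_i| ≤ 4e`, and `|S_i u - S_i v| ≤ (1 + 4d) |u - v|` (TBA with `E = G_i`). `R_i = S_i R_(i+1)`:
`|R'_i - R_i| ≤ 4e + (1+4d) |R'_(i+1) - R_(i+1)|`, so `≤ 4 e q (1+4d)^q ≤ 8 q e`. `E_i = G_i R_(i+1)`: `≤ 16 q e`. `C_i = φ E_i`: `≤ 2 q e + 2 · 16 q e`. -/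
def MFS_stmt : Prop := FST_stmt

end Pool.Agent.helper90.DH
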